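import Mathlib

set_option autoImplicit false

namespace Pool.Agent.Results.MP_cda11a_an.NoShadow

open Set Filter Topology

/-- `(x, y) ∈ G ^ n`. -/
def RelPow {X : Type} (G : Set (X × X)) (n : ℕ) (x y : X) : Prop :=
  ∃ c : ℕ → X, c 0 = x ∧ c n = y ∧ ∀ k < n, (c k, c (k + 1)) ∈ G

/-- the `(1,2)`-shadowing property, for the uniformity of all neighbourhoods of the diagonal. -/
def Shadow12 {X : Type} [TopologicalSpace X] (G : Set (X × X)) : Prop :=
  ∀ U ∈ 𝓝ˢ (diagonal X), ∃ V ∈ 𝓝ˢ (diagonal X), ∀ x : ℕ → X,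
    (∀ m y, (x m, y) ∈ G → (y, x (m + 1)) ∈ V) →
    ∃ y : ℕ → X, (∀ m, (y m, y (m + 1)) ∈ G) ∧ ∀ m, (y m, x m) ∈ U

abbrev Amb : Type := (ℤ × Bool → Bool) × (Bool → ℕ → Bool)

def XS : Set Amb :=
  {x | (∀ a b, x.1 a = true → x.1 b = true → a = b) ∧ ∃ c, ∀ i, x.2 c i = false}

lemma XS_closed : IsClosed XS := by
  have : XS = (⋂ a, ⋂ b, (fun x : Amb => (x.1 a, x.1 b)) ⁻¹' {q | q.1 = true → q.2 = true → a = b})
      ∩ ⋃ c, ⋂ i, (fun x : Amb => x.2 c i) ⁻¹' {false} := by
    ext x; simp [XS]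
  rw [this]
  exact (isClosed_iInter fun a => isClosed_iInter fun b =>
    (isClosed_discrete _).preimage (by fun_prop)).inter (isClosed_iUnion_of_finite fun c =>
      isClosed_iInter fun i => (isClosed_discrete _).preimage (by fun_prop))

instance : CompactSpace XS := isCompact_iff_compactSpace.1 XS_closed.isCompact

def τ (c : Bool) (a : ℤ × Bool) : ℤ × Bool := ((if c then 1 else 0) - a.1, a.2)

lemma τ_τ (c : Bool) (a : ℤ × Bool) : τ c (τ c a) = a := by simp [τ]

def G0 : Set (XS × XS) :=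
  {q | q.2.1.2 = q.1.1.2 ∧ ∃ c, (∀ i, q.1.1.2 c i = false) ∧ ∀ a, q.2.1.1 a = q.1.1.1 (τ c a)}

lemma G0_closed : IsClosed G0 := by
  have : G0 = {q : XS × XS | q.2.1.2 = q.1.1.2} ∩ ⋃ c, ((⋂ i, {q : XS × XS | q.1.1.2 c i = false})
      ∩ ⋂ a, {q : XS × XS | q.2.1.1 a = q.1.1.1 (τ c a)}) := by
    ext q; simp [G0]
  rw [this]
  exact (isClosed_eq (by fun_prop) (by fun_prop)).inter (isClosed_iUnion_of_finite fun c =>
    (isClosed_iInter fun i => isClosed_eq (by fun_prop) (by fun_prop)).inter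
      (isClosed_iInter fun a => isClosed_eq (by fun_prop) (by fun_prop)))

def mv (c : Bool) (x : XS) : XS := ⟨(fun a => x.1.1 (τ c a), x.1.2),
  fun a b ha hb => by
    have := x.2.1 _ _ ha hb
    rw [← τ_τ c a, this, τ_τ], x.2.2⟩

def pt (a : ℤ × Bool) (c : Bool) (K : ℕ) : XS :=
  ⟨(fun b => decide (b = a), fun d i => decide (d ≠ c ∧ i = K)),
    fun b b' hb hb' => by simp only [decide_eq_true_eq] at hb hb'; rw [hb, hb'],
    c, fun i => by simp⟩

def Agree (K : ℕ) : Set (XS × XS) :=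
  {q | (∀ a : ℤ × Bool, |a.1| < K → q.1.1.1 a = q.2.1.1 a) ∧
    ∀ c, ∀ i < K, q.1.1.2 c i = q.2.1.2 c i}

lemma agree {V : Set (XS × XS)} (hV : V ∈ 𝓝ˢ (diagonal XS)) : ∃ K, Agree K ⊆ V := by
  by_contra hcon
  push Not at hcon
  have hc : ∀ K, IsClosed (Agree K ∩ (interior V)ᶜ) := by
    intro K
    have : Agree K = (⋂ a : ℤ × Bool, ⋂ _ : |a.1| < K, {q : XS × XS | q.1.1.1 a = q.2.1.1 a}) ∩
        ⋂ c, ⋂ i, ⋂ _ : i < K, {q : XS × XS | q.1.1.2 c i = q.2.1.2 c i} := by
      ext q; simp [Agree]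
    rw [this]
    exact ((isClosed_iInter fun a => isClosed_iInter fun _ =>
      isClosed_eq (by fun_prop) (by fun_prop)).inter (isClosed_iInter fun c =>
        isClosed_iInter fun i => isClosed_iInter fun _ =>
          isClosed_eq (by fun_prop) (by fun_prop))).inter isOpen_interior.isClosed_compl
  obtain ⟨q, hq⟩ := IsCompact.nonempty_iInter_of_sequence_nonempty_isCompact_isClosed
    (fun K => Agree K ∩ (interior V)ᶜ)
    (fun K q hq => ⟨⟨fun a ha => hq.1.1 a (by push_cast; omega),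
      fun c i hi => hq.1.2 c i (by omega)⟩, hq.2⟩)
    (fun K => by
      obtain ⟨q, h1, h2⟩ := not_subset.1 (hcon K)
      exact ⟨q, h1, fun h => h2 (interior_subset h)⟩) (hc 0).isCompact hc
  rw [mem_iInter] at hq
  refine (hq 0).2 (subset_interior_iff_mem_nhdsSet.2 hV ?_)
  refine Subtype.ext (Prod.ext (funext fun a => ?_) (funext fun c => funext fun i => ?_))
  · exact (hq (a.1.natAbs + 1)).1.1 a (by push_cast; omega)
  · exact (hq (i + 1)).1.2 c i (by omega)

def pos (s : ℤ) : ℤ := if s % 2 = 0 then -(s / 2) else s / 2 + 1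

theorem result : ∃ (X : Type) (_ : TopologicalSpace X) (_ : CompactSpace X) (_ : T2Space X)
    (_ : TotallyDisconnectedSpace X) (G : Set (X × X)) (n : ℕ),
    Nonempty X ∧ IsClosed G ∧ G.Nonempty ∧ 1 ≤ n ∧ (∀ x, RelPow G n x x) ∧ ¬ Shadow12 G := by
  have hmv : ∀ x : XS, ∀ c, (∀ i, x.1.2 c i = false) → (x, mv c x) ∈ G0 ∧ (mv c x, x) ∈ G0 :=
    fun x c hc => ⟨⟨rfl, c, hc, fun a => rfl⟩, ⟨rfl, c, hc, fun a => by simp [mv, τ_τ]⟩⟩
  refine ⟨XS, inferInstance, inferInstance, inferInstance, inferInstance, G0, 2,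
    ⟨pt (0, true) true 0⟩, G0_closed, ⟨_, (hmv (pt (0, true) true 0) true (by simp [pt])).1⟩,
    by norm_num, fun x => ?_, fun h => ?_⟩
  · obtain ⟨c, hc⟩ := x.2.2
    refine ⟨fun k => if k = 1 then mv c x else x, by simp, by simp, fun k hk => ?_⟩
    interval_cases k
    · simpa using (hmv x c hc).1
    · simpa using (hmv x c hc).2
  · obtain ⟨V, hV, hs⟩ := h {q | ∀ b, q.1.1.1 (0, b) = q.2.1.1 (0, b)} (by
      refine IsOpen.mem_nhdsSet ?_ |>.2 ?_
      · have : {q : XS × XS | ∀ b, q.1.1.1 (0, b) = q.2.1.1 (0, b)} = ⋂ b, (fun q : XS × XS =>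
            (q.1.1.1 (0, b), q.2.1.1 (0, b))) ⁻¹' {r | r.1 = r.2} := by
          ext q; simp
        rw [this]
        exact isOpen_iInter_of_finite fun b => (isOpen_discrete _).preimage (by fun_prop)
      · intro q hq b
        rw [mem_diagonal_iff.1 hq])
    obtain ⟨K, hK⟩ := agree hV
    let s : ℕ → ℤ := fun m => if m < 2 * K + 2 then m else (m : ℤ) - (4 * K + 4)
    obtain ⟨y, hy1, hy2⟩ := hs
      (fun m => pt (pos (s m), decide (2 * K + 2 ≤ m)) (decide (s m % 2 = 0)) K) (by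
        rintro m y ⟨h1, c, h2, h3⟩
        have hc : c = decide (s m % 2 = 0) := by
          by_contra hne
          have : decide (c ≠ decide (s m % 2 = 0) ∧ K = K) = false := h2 K
          exact (decide_eq_false_iff_not.1 this) ⟨hne, rfl⟩
        refine hK ⟨fun a ha => ?_, fun d i hi => ?_⟩
        · rw [h3 a, hc]
          obtain ⟨n, b⟩ := a
          simp only [pt, τ, Prod.mk.injEq, decide_eq_decide, pos, s] at ha ⊢
          rw [abs_lt] at ha
          cases b <;> simp only [decide_eq_true_eq, Bool.false_eq, Bool.true_eq,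
            decide_eq_false_iff_not] <;> split_ifs <;> push_cast at * <;> omega
        · rw [h1]
          have : i ≠ K := by omega
          simp [pt, this])
    have inv : ∀ m, ∃ n, (y m).1.1 (n, false) = true := by
      intro m
      induction m with
      | zero =>
        refine ⟨0, ?_⟩
        rw [hy2 0 false]
        simp [pt, pos, s]
      | succ m ih =>
        obtain ⟨n, hn⟩ := ih
        obtain ⟨-, c, -, h3⟩ := hy1 m
        refine ⟨(τ c (n, false)).1, ?_⟩
        have := h3 (τ c (n, false))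
        rw [τ_τ, hn] at this
        exact this
    obtain ⟨n, hn⟩ := inv (4 * K + 4)
    have h2 : (y (4 * K + 4)).1.1 (0, true) = true := by
      rw [hy2 (4 * K + 4) true]
      have : ¬ 4 * K + 4 < 2 * K + 2 := by omega
      simp [pt, pos, s, this]
      omega
    have := (y (4 * K + 4)).2.1 _ _ hn h2
    simp at this

end Pool.Agent.Results.MP_cda11a_an.NoShadow
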